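import Mathlib

namespace Pool.Agent.Results.MP_db54ba57_co.Cex

open Finset Filter Asymptotics

/-- An `m × n` 0-1 matrix (`true` is a 1-entry). -/
abbrev Mat (m n : ℕ) := Fin m → Fin n → Bool

/-- `M` contains `P`: some order-preserving choice of rows and columns of `M` has a 1 wherever
`P` has a 1. -/
def Contains {m n k l : ℕ} (M : Mat m n) (P : Mat k l) : Prop :=
  ∃ (f : Fin k → Fin m) (g : Fin l → Fin n), StrictMono f ∧ StrictMono g ∧
    ∀ a b, P a b = true → M (f a) (g b) = true

/-- `M` with the entry `(i, j)` changed to 1. -/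
def setOne {m n : ℕ} (M : Mat m n) (i : Fin m) (j : Fin n) : Mat m n :=
  fun a b => if a = i ∧ b = j then true else M a b

/-- `M` is `P`-saturated. -/
def Saturated {m n k l : ℕ} (M : Mat m n) (P : Mat k l) : Prop :=
  ¬ Contains M P ∧ ∀ i j, M i j = false → Contains (setOne M i j) P

/-- The number of 1-entries. -/
def weight {m n : ℕ} (M : Mat m n) : ℕ :=
  (univ.filter fun x : Fin m × Fin n => M x.1 x.2 = true).card

/-- The minimum weight of an `m × n` `P`-saturated matrix. -/
noncomputable def sat (m n : ℕ) {k l : ℕ} (P : Mat k l) : ℕ :=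
  sInf {w | ∃ M : Mat m n, Saturated M P ∧ weight M = w}

/-- `P'` arises from `P` by inserting empty rows strictly between the first and the last row and
empty columns strictly between the first and the last column: the rows and columns of `P` sit in
`P'` in order, the first and last ones at the first and last places, and all other entries
of `P'` are 0. -/
def InteriorInsertion {k l k' l' : ℕ} (P : Mat (k + 1) (l + 1)) (P' : Mat (k' + 1) (l' + 1)) :
    Prop :=
  ∃ (r : Fin (k + 1) → Fin (k' + 1)) (c : Fin (l + 1) → Fin (l' + 1)),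
    StrictMono r ∧ StrictMono c ∧ r 0 = 0 ∧ r (Fin.last k) = Fin.last k' ∧
    c 0 = 0 ∧ c (Fin.last l) = Fin.last l' ∧
    ∀ i j, P' i j = true ↔ ∃ a b, P a b = true ∧ r a = i ∧ c b = j

/-- The permutation matrix with 1-entries at `(0,1), (1,3), (2,0), (3,2)`. -/
def P0 : Mat 4 4 := fun a b => decide (b = ![1, 3, 0, 2] a)

/-- Row positions after inserting `e` empty rows between the second and the third row. -/
def rowIns (e : ℕ) (a : Fin 4) : Fin (e + 3 + 1) :=
  ⟨if a.val < 2 then a.val else a.val + e, by have := a.2; split_ifs <;> omega⟩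

/-- `P0` with `e` empty rows inserted between its second and third row. -/
def P1 (e : ℕ) : Mat (e + 3 + 1) 4 := fun i j => decide (∃ a, P0 a j = true ∧ rowIns e a = i)

lemma contains_mono {m n k l : ℕ} {M M' : Mat m n} {P : Mat k l}
    (h : ∀ i j, M i j = true → M' i j = true) (hc : Contains M P) : Contains M' P :=
  let ⟨f, g, a, b, c⟩ := hc
  ⟨f, g, a, b, fun x y hxy => h _ _ (c x y hxy)⟩

lemma exists_sat {m n k l : ℕ} (M0 : Mat m n) (P : Mat k l) (h0 : ¬ Contains M0 P) :
    ∃ M : Mat m n, Saturated M P ∧ ∀ i j, M0 i j = true → M i j = true := by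
  classical
  obtain ⟨M, hM, hmax⟩ := exists_max_image ((univ : Finset (Mat m n)).filter fun M =>
    ¬ Contains M P ∧ ∀ i j, M0 i j = true → M i j = true) weight ⟨M0, by simp [h0]⟩
  simp only [mem_filter, mem_univ, true_and] at hM hmax
  refine ⟨M, ⟨hM.1, fun i j hij => ?_⟩, hM.2⟩
  by_contra hc
  have h1 := hmax (setOne M i j) ⟨hc, fun a b hab => by
    simp only [setOne]; split_ifs
    · rfl
    · exact hM.2 a b hab⟩
  have h2 : weight M < weight (setOne M i j) := by
    apply card_lt_card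
    refine ⟨fun x hx => ?_, fun hs => ?_⟩
    · simp only [mem_filter, mem_univ, true_and, setOne] at hx ⊢
      split_ifs
      · rfl
      · exact hx
    · have : (i, j) ∈ univ.filter fun x : Fin m × Fin n => M x.1 x.2 = true :=
        hs (by simp [setOne])
      simp [hij] at this
  omega

lemma sm_gap {k m : ℕ} {f : Fin k → Fin m} (hf : StrictMono f) (d a : ℕ) (h : a + d < k) :
    (f ⟨a, by omega⟩).val + d ≤ (f ⟨a + d, h⟩).val := by
  induction d with
  | zero => simp
  | succ d ih =>
    have h1 := ih (by omega)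
    have h2 : f ⟨a + d, by omega⟩ < f ⟨a + (d + 1), h⟩ := hf (by simp [Fin.lt_def])
    rw [Fin.lt_def] at h2
    omega

lemma lower (m e n : ℕ) (hm : 1 ≤ m) (he : m ≤ 2 * e + 3) : n ≤ sat m n (P1 e) := by
  classical
  have h0 : ¬ Contains (fun _ _ => false : Mat m n) (P1 e) := by
    rintro ⟨f, g, -, -, h⟩
    have := h (rowIns e 0) 1 (by simp only [P1, decide_eq_true_eq]; exact ⟨0, by decide, rfl⟩)
    simp at this
  obtain ⟨M0, hM0, -⟩ := exists_sat _ _ h0
  have hne : {w | ∃ M : Mat m n, Saturated M (P1 e) ∧ weight M = w}.Nonempty := ⟨_, M0, hM0, rfl⟩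
  obtain ⟨M, hM, hw⟩ := Nat.sInf_mem hne
  unfold sat
  rw [← hw]
  set r0 : Fin m := ⟨m - 2 - e, by omega⟩
  have hrow : ∀ j, M r0 j = true := by
    intro j
    by_contra hc
    obtain ⟨f, g, hf, hg, h⟩ := hM.2 r0 j (by simpa using hc)
    refine hM.1 ⟨f, g, hf, hg, fun a b hab => ?_⟩
    have h1 := h a b hab
    simp only [P1, decide_eq_true_eq] at hab
    obtain ⟨x, -, hx⟩ := hab
    have hv : a.val < 2 ∨ 2 + e ≤ a.val := by
      rw [← hx]; simp only [rowIns]; split_ifs <;> omega
    have ha := a.2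
    have g1 := sm_gap hf a.val 0 (by omega)
    have g2 := sm_gap hf (e + 3 - a.val) a.val (by omega)
    have g3 := (f ⟨a.val + (e + 3 - a.val), by omega⟩).2
    simp only [zero_add, Fin.eta] at g1 g2
    have hne : f a ≠ r0 := by
      intro e1
      have : (f a).val = m - 2 - e := by rw [e1]
      omega
    simpa [setOne, hne] using h1
  calc n = (univ.image fun j : Fin n => (r0, j)).card := by
        rw [card_image_of_injective _ (fun a b h => by simpa using h)]; simp
    _ ≤ weight M := card_le_card fun x hx => by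
        simp only [mem_image, mem_univ, true_and] at hx
        obtain ⟨j, rfl⟩ := hx
        simp [hrow]

def W (i j : ℕ) : Bool :=
  (([[], [1, 0, 1, 0, 0, 1, 1], [1, 0, 0, 0, 1], [1], [1, 1, 1, 0, 0, 1, 1], [0, 0, 1, 0, 0, 0, 1],
    [1, 1, 0, 0, 1, 0, 1]] : List (List ℕ)).getD i []).getD j 0 == 1

def avoidChk : Bool :=
  (List.range 7).all fun r3 => (List.range r3).all fun r2 => (List.range r2).all fun r1 =>
  (List.range r1).all fun r0 => (List.range 7).all fun c3 => (List.range c3).all fun c2 =>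
  (List.range c2).all fun c1 => (List.range c1).all fun c0 =>
    !(W r0 c1 && W r1 c3 && W r2 c0 && W r3 c2)

lemma avoidChk_true : avoidChk = true := by decide +kernel

lemma W_avoid {r0 r1 r2 r3 c0 c1 c2 c3 : ℕ} (a : r3 < 7) (a0 : r0 < r1) (a1 : r1 < r2)
    (a2 : r2 < r3) (b : c3 < 7) (b0 : c0 < c1) (b1 : c1 < c2) (b2 : c2 < c3) :
    ¬ (W r0 c1 = true ∧ W r1 c3 = true ∧ W r2 c0 = true ∧ W r3 c2 = true) := by
  have h := avoidChk_true
  simp only [avoidChk, List.all_eq_true, List.mem_range] at h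
  have := h r3 a r2 a2 r1 a1 r0 a0 c3 b c2 b2 c1 b1 c0 b0
  rintro ⟨x, y, z, w⟩
  simp [x, y, z, w] at this

lemma W_pos : ∀ r < 7, ∀ c < 7, W r c = true → 0 < r ∧ c ≠ 3 := by decide +kernel

def W' (i r c : ℕ) : Bool := W r c || (r == i && c == 3)

lemma W_sat : ∀ i < 7, ∃ r0 < 7, ∃ r1 < 7, ∃ r2 < 7, ∃ r3 < 7, r0 < r1 ∧ r1 < r2 ∧ r2 < r3 ∧
    ∃ c0 < 7, ∃ c1 < 7, ∃ c2 < 7, ∃ c3 < 7, c0 < c1 ∧ c1 < c2 ∧ c2 < c3 ∧
    (W' i r0 c1 = true ∧ W' i r1 c3 = true ∧ W' i r2 c0 = true ∧ W' i r3 c2 = true) := by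
  decide +kernel

def gam (n j : ℕ) : ℕ := if j < 3 then j else if j + 3 < n then 3 else j + 7 - n

lemma gam_lt {n j : ℕ} (h : j < n) : gam n j < 7 := by
  unfold gam; split_ifs <;> omega

lemma gam_mono {n x y : ℕ} (hn : 7 ≤ n) (h1 : x < y) (h2 : gam n x ≠ 3) (h3 : gam n y ≠ 3) :
    gam n x < gam n y := by
  unfold gam at *
  split_ifs at * <;> omega

lemma gam_inj {n x y : ℕ} (hn : 7 ≤ n) (h2 : gam n x ≠ 3) (h : gam n x = gam n y) : x = y := by
  unfold gam at *
  split_ifs at * <;> omega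

lemma sat_le {m n k l : ℕ} {M : Mat m n} {P : Mat k l} (h : Saturated M P) :
    sat m n P ≤ weight M :=
  Nat.sInf_le ⟨M, h, rfl⟩

lemma upper (m n : ℕ) (hm : 7 ≤ m) : sat m n P0 ≤ 6 * m := by
  classical
  by_cases hn : n < 7
  · have h0 : ¬ Contains (fun _ _ => false : Mat m n) P0 := by
      rintro ⟨f, g, -, -, h⟩
      have := h 0 1 (by decide)
      simp at this
    obtain ⟨M, hM, -⟩ := exists_sat _ _ h0
    refine (sat_le hM).trans ((card_filter_le _ _).trans ?_)
    simp only [card_univ, Fintype.card_prod, Fintype.card_fin]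
    nlinarith
  · set M0 : Mat m n := fun i j => W (i.val - (m - 7)) (gam n j.val) with hM0
    have gl : ∀ j : Fin n, gam n j.val < 7 := fun j => gam_lt j.2
    have rl : ∀ i : Fin m, i.val - (m - 7) < 7 := fun i => by have := i.2; omega
    have h0 : ¬ Contains M0 P0 := by
      rintro ⟨f, g, hf, hg, h⟩
      have a0 := h 0 1 (by decide)
      have a1 := h 1 3 (by decide)
      have a2 := h 2 0 (by decide)
      have a3 := h 3 2 (by decide)
      have b0 := W_pos _ (rl _) _ (gl _) a0
      have b1 := W_pos _ (rl _) _ (gl _) a1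
      have b2 := W_pos _ (rl _) _ (gl _) a2
      have b3 := W_pos _ (rl _) _ (gl _) a3
      have f01 : (f 0).val < (f 1).val := hf (by decide)
      have f12 : (f 1).val < (f 2).val := hf (by decide)
      have f23 : (f 2).val < (f 3).val := hf (by decide)
      have g01 : (g 0).val < (g 1).val := hg (by decide)
      have g12 : (g 1).val < (g 2).val := hg (by decide)
      have g23 : (g 2).val < (g 3).val := hg (by decide)
      have hn' : 7 ≤ n := by omega
      have c0 := b0.1
      exact W_avoid (rl _) (by omega) (by omega) (by omega) (gl _) (gam_mono hn' g01 b2.2 b0.2)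
        (gam_mono hn' g12 b0.2 b3.2) (gam_mono hn' g23 b3.2 b1.2) ⟨a0, a1, a2, a3⟩
    obtain ⟨M, hM, hsup⟩ := exists_sat _ _ h0
    have hz : ∀ i j, M i j = true → gam n j.val ≠ 3 := by
      intro i j hij hj
      apply hM.1
      obtain ⟨r0, l0, r1, l1, r2, l2, r3, l3, p01, p12, p23, c0, k0, c1, k1, c2, k2, c3, k3,
        q01, q12, q23, w0, w1, w2, w3⟩ := W_sat _ (rl i)
      have hi := i.2
      have hj2 := j.2
      have hj3 : 3 ≤ j.val ∧ j.val + 3 < n := by
        unfold gam at hj; split_ifs at hj <;> omega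
      let ρ : ℕ → ℕ := fun r => if r = i.val - (m - 7) then i.val else r + (m - 7)
      let γ : ℕ → ℕ := fun c => if c < 3 then c else if c = 3 then j.val else c + n - 7
      have ρl : ∀ r, r < 7 → ρ r < m := fun r hr => by simp only [ρ]; split_ifs <;> omega
      have γl : ∀ c, c < 7 → γ c < n := fun c hc => by simp only [γ]; split_ifs <;> omega
      have ρm : ∀ r s, r < s → ρ r < ρ s := fun r s h => by simp only [ρ]; split_ifs <;> omega
      have γm : ∀ r s, r < s → γ r < γ s := fun r s h => by simp only [γ]; split_ifs <;> omega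
      have key : ∀ r (hr : r < 7) c (hc : c < 7), W' (i.val - (m - 7)) r c = true →
          M ⟨ρ r, ρl r hr⟩ ⟨γ c, γl c hc⟩ = true := by
        intro r hr c hc h
        simp only [W', Bool.or_eq_true, Bool.and_eq_true, beq_iff_eq] at h
        rcases h with h | ⟨h1, h2⟩
        · apply hsup
          have b := W_pos r hr c hc h
          have e1 : ρ r - (m - 7) = r := by simp only [ρ]; split_ifs <;> omega
          have e2 : gam n (γ c) = c := by simp only [γ, gam]; split_ifs <;> omega
          simp only [hM0, e1, e2, h]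
        · have e1 : (⟨ρ r, ρl r hr⟩ : Fin m) = i := Fin.ext (by simp [ρ, h1])
          have e2 : (⟨γ c, γl c hc⟩ : Fin n) = j := Fin.ext (by simp [γ, h2])
          rw [e1, e2, hij]
      refine ⟨![⟨ρ r0, ρl _ l0⟩, ⟨ρ r1, ρl _ l1⟩, ⟨ρ r2, ρl _ l2⟩, ⟨ρ r3, ρl _ l3⟩],
        ![⟨γ c0, γl _ k0⟩, ⟨γ c1, γl _ k1⟩, ⟨γ c2, γl _ k2⟩, ⟨γ c3, γl _ k3⟩], ?_, ?_, ?_⟩
      · rw [Fin.strictMono_iff_lt_succ]
        intro t
        fin_cases t
        · exact ρm _ _ p01
        · exact ρm _ _ p12
        · exact ρm _ _ p23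
      · rw [Fin.strictMono_iff_lt_succ]
        intro t
        fin_cases t
        · exact γm _ _ q01
        · exact γm _ _ q12
        · exact γm _ _ q23
      · intro a b hab
        simp only [P0, decide_eq_true_eq] at hab
        subst hab
        fin_cases a
        · exact key _ l0 _ k1 w0
        · exact key _ l1 _ k3 w1
        · exact key _ l2 _ k0 w2
        · exact key _ l3 _ k2 w3
    refine (sat_le hM).trans ?_
    have : weight M ≤ ((univ : Finset (Fin m)) ×ˢ ({0, 1, 2, 4, 5, 6} : Finset ℕ)).card := by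
      apply card_le_card_of_injOn (fun x => (x.1, gam n x.2.val))
      · intro x hx
        simp only [coe_filter, mem_univ, true_and, Set.mem_setOf_eq] at hx
        have h1 := hz _ _ hx
        have h2 := gl x.2
        simp only [coe_product, coe_univ, coe_insert, coe_singleton, Set.mem_prod, Set.mem_univ,
          Set.mem_insert_iff, Set.mem_singleton_iff, true_and]
        omega
      · intro x hx y hy h
        simp only [coe_filter, mem_univ, true_and, Set.mem_setOf_eq] at hx hy
        have h1 := hz _ _ hx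
        have h2 := hz _ _ hy
        simp only [Prod.mk.injEq] at h
        exact Prod.ext h.1 (Fin.ext (gam_inj (by omega) h1 h.2))
    rw [card_product] at this
    simp only [card_univ, Fintype.card_fin] at this
    have e6 : ({0, 1, 2, 4, 5, 6} : Finset ℕ).card = 6 := by decide
    rw [e6] at this
    omega

lemma ins (e : ℕ) : InteriorInsertion P0 (P1 e) := by
  refine ⟨rowIns e, id, ?_, strictMono_id, rfl, ?_, rfl, rfl, fun i j => ?_⟩
  · intro a b hab
    rw [Fin.lt_def] at hab ⊢
    simp only [rowIns]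
    split_ifs <;> omega
  · apply Fin.ext
    simp [rowIns]
    omega
  · simp only [P1, decide_eq_true_eq, id]
    constructor
    · rintro ⟨a, h1, h2⟩
      exact ⟨a, j, h1, h2, rfl⟩
    · rintro ⟨a, b, h1, h2, rfl⟩
      exact ⟨a, h1, h2⟩

/-- For every `m₀ ≥ 7` the pattern `P0` has `sat(m₀, n, P0) ≤ 6 m₀`, while `P1 e` (an interior
insertion of `e` empty rows) has `sat(m₀, n, P1 e) ≥ n` whenever `m₀ ≤ 2 e + 3`; hence the
statement of Q1 fails. -/
theorem result :
    (∀ e : ℕ, InteriorInsertion P0 (P1 e)) ∧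
    (∀ m₀ : ℕ, 7 ≤ m₀ → (∀ n, sat m₀ n P0 ≤ 6 * m₀) ∧
      ∀ e : ℕ, m₀ ≤ 2 * e + 3 → ∀ n, n ≤ sat m₀ n (P1 e)) ∧
    ¬ ∀ (k l k' l' : ℕ) (P : Mat (k + 1) (l + 1)) (P' : Mat (k' + 1) (l' + 1)),
      (∃ a b, P a b = true) → InteriorInsertion P P' →
      ((fun n => (sat n n P' : ℝ)) =O[atTop] fun n => (sat n n P : ℝ)) ∧
      ∀ m₀ : ℕ, 1 ≤ m₀ → (fun n => (sat m₀ n P' : ℝ)) =O[atTop] fun n => (sat m₀ n P : ℝ) := by
  refine ⟨ins, fun m hm => ⟨fun n => upper m n hm, fun e he n => lower m e n (by omega) he⟩, ?_⟩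
  intro h
  obtain ⟨c, hc⟩ := ((h 3 3 5 3 P0 (P1 2) ⟨0, 1, by decide⟩ (ins 2)).2 7 (by omega)).bound
  obtain ⟨N, hN⟩ := exists_nat_gt (|c| * 42)
  obtain ⟨n, h1, h2⟩ := (hc.and (eventually_ge_atTop N)).exists
  have a : (n : ℝ) ≤ sat 7 n (P1 2) := by exact_mod_cast lower 7 2 n (by omega) (by omega)
  have b : (sat 7 n P0 : ℝ) ≤ 42 := by exact_mod_cast upper 7 n le_rfl
  have d : (N : ℝ) ≤ n := by exact_mod_cast h2
  rw [Real.norm_natCast, Real.norm_natCast] at h1
  have e1 : c * (sat 7 n P0 : ℝ) ≤ |c| * 42 :=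
    (mul_le_mul_of_nonneg_right (le_abs_self c) (by positivity)).trans
      (mul_le_mul_of_nonneg_left b (abs_nonneg c))
  linarith

end Pool.Agent.Results.MP_db54ba57_co.Cex
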